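import Pool.Agent.Y285.LL.DenseV

/-!
Completeness for every conformal map and every weight `W(t)` with `W(t)/t^2` nondecreasing and
`W(t) = O(t^(M+2))`, `M ≥ 8 (p - 1)`.
-/

set_option autoImplicit false

open Set Filter Metric Topology Complex MeasureTheory
open scoped ENNReal Polynomial

namespace Pool.Agent.Y285.LL

open Pool.Agent.Helper523.LL Pool.Agent.Helper405.Riemann

/-- normalisation of a conformal map, with the behaviour along dilations -/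
theorem normaliseV {φ : ℂ → ℂ} (hd : DifferentiableOn ℂ φ Om) (hb : BijOn φ Om (ball 0 1)) :
    ∃ (g ψ : ℂ → ℂ) (κ ρ₀ : ℝ), SD Om g ψ ∧ 0 < κ ∧ ρ₀ < 1 ∧
      (∀ z ∈ Om, 1 - ‖φ z‖ ≤ κ * (1 - ‖ψ z‖) ∧ 1 - ‖ψ z‖ ≤ κ * (1 - ‖φ z‖)) ∧
      ∀ z ∈ Om, ∀ r : ℝ, 0 ≤ r → r ≤ 1 → ρ₀ ≤ r * ‖ψ z‖ → ‖φ (g (r * ψ z))‖ ≤ ‖φ z‖ := by
  have hzero : (0:ℂ) ∈ Om := half_sub_Om (mem_ball_self (by norm_num))
  have hlt : ∀ z ∈ Om, ‖φ z‖ < 1 := fun z hz => mem_ball_zero_iff.1 (hb.mapsTo hz)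
  set a := φ 0 with ha
  have ha1 : ‖a‖ < 1 := hlt 0 hzero
  set ψ : ℂ → ℂ := fun z => bl a (φ z) with hψ
  have hψd : DifferentiableOn ℂ ψ Om := by
    intro z hz
    have h1 : DifferentiableAt ℂ φ z := hd.differentiableAt (isOpen_Om.mem_nhds hz)
    exact (DifferentiableAt.comp z (bl_hasDerivAt ha1 (hlt z hz)).differentiableAt h1).differentiableWithinAt
  have hinv : ∀ w : ℂ, ‖w‖ < 1 → bl a (bl (-a) w) = w := by
    intro w hw
    have hna : ‖-a‖ < 1 := by rwa [norm_neg]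
    have h1 : ‖bl (-a) w‖ < 1 := bl_norm_lt hna hw
    have d1 := bl_den_ne hna hw
    have d2 := bl_den_ne ha1 h1
    rw [bl, bl] at *
    rw [map_neg, neg_mul, sub_neg_eq_add, sub_neg_eq_add] at *
    rw [div_eq_iff d2]
    generalize (starRingEnd ℂ) a = b at d1 d2
    have e3 : (w + a) / (1 + b * w) - a = w * (1 - b * a) / (1 + b * w) := by
      rw [eq_div_iff d1, sub_mul, div_mul_cancel₀ _ d1]; ring
    have e4 : 1 - b * ((w + a) / (1 + b * w)) = (1 - b * a) / (1 + b * w) := by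
      rw [eq_div_iff d1, sub_mul, mul_assoc, div_mul_cancel₀ _ d1]; ring
    rw [e3, e4]; ring
  have hψb : BijOn ψ Om (ball 0 1) := by
    refine ⟨?_, ?_, ?_⟩
    · intro z hz
      rw [mem_ball_zero_iff]
      exact bl_norm_lt ha1 (hlt z hz)
    · intro x hx y hy hxy
      exact hb.injOn hx hy (bl_inj ha1 (hlt x hx) (hlt y hy) hxy)
    · intro w hw
      rw [mem_ball_zero_iff] at hw
      have hna : ‖-a‖ < 1 := by rwa [norm_neg]
      have h1 : ‖bl (-a) w‖ < 1 := bl_norm_lt hna hw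
      obtain ⟨z, hz, hzw⟩ := hb.surjOn (mem_ball_zero_iff.2 h1)
      refine ⟨z, hz, ?_⟩
      simp only [hψ]
      rw [hzw]
      exact hinv w hw
  have hψ0 : ψ 0 = 0 := by simp only [hψ, ← ha, bl_self]
  obtain ⟨g, hSD⟩ := sd_of_conf hψd hψb hψ0
  have hφψ : ∀ z ∈ Om, φ z = bl (-a) (ψ z) := by
    intro z hz
    have hna : ‖-a‖ < 1 := by rwa [norm_neg]
    have h1 : ‖ψ z‖ < 1 := bl_norm_lt ha1 (hlt z hz)
    exact bl_inj ha1 (hlt z hz) (bl_norm_lt hna h1) (hinv (ψ z) h1).symm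
  -- comparison of the weights
  have hapos : 0 < 1 - ‖a‖ ^ 2 := by nlinarith [norm_nonneg a]
  set κ : ℝ := 8 / (1 - ‖a‖) ^ 2 with hκ
  have ha2 : 0 < 1 - ‖a‖ := by linarith
  have hκ0 : 0 < κ := by positivity
  have hcmp : ∀ z ∈ Om, 1 - ‖φ z‖ ≤ κ * (1 - ‖ψ z‖) ∧ 1 - ‖ψ z‖ ≤ κ * (1 - ‖φ z‖) := by
    intro z hz
    have h1 := hlt z hz
    have h2 : ‖ψ z‖ < 1 := bl_norm_lt ha1 h1
    have hid := bl_id ha1 h1
    have hD1 : ‖1 - (starRingEnd ℂ) a * φ z‖ ≤ 2 := by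
      have h3 := norm_sub_le (1:ℂ) ((starRingEnd ℂ) a * φ z)
      rw [norm_one, norm_mul, RCLike.norm_conj] at h3
      nlinarith [norm_nonneg a, norm_nonneg (φ z)]
    have hD2 : 1 - ‖a‖ ≤ ‖1 - (starRingEnd ℂ) a * φ z‖ := by
      have h3 := norm_sub_norm_le (1:ℂ) ((starRingEnd ℂ) a * φ z)
      rw [norm_one, norm_mul, RCLike.norm_conj] at h3
      nlinarith [norm_nonneg a, norm_nonneg (φ z)]
    set D := ‖1 - (starRingEnd ℂ) a * φ z‖ with hD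
    have hpψ : 0 ≤ 1 - ‖ψ z‖ := by linarith
    have hpφ : 0 ≤ 1 - ‖φ z‖ := by linarith
    have hnψ := norm_nonneg (ψ z)
    have hnφ := norm_nonneg (φ z)
    have hna := norm_nonneg a
    have hidψ : (1 - ‖ψ z‖ ^ 2) * D ^ 2 = (1 - ‖a‖ ^ 2) * (1 - ‖φ z‖ ^ 2) := hid
    have b1 : 1 - ‖φ z‖ ≤ 1 - ‖φ z‖ ^ 2 := by nlinarith
    have b2 : 1 - ‖ψ z‖ ≤ 1 - ‖ψ z‖ ^ 2 := by nlinarith
    have b3 : 1 - ‖φ z‖ ^ 2 ≤ 2 * (1 - ‖φ z‖) := by nlinarith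
    have b4 : 1 - ‖ψ z‖ ^ 2 ≤ 2 * (1 - ‖ψ z‖) := by nlinarith
    have hD0 : 0 < D := by linarith
    constructor
    · rw [hκ, div_mul_eq_mul_div, le_div_iff₀ (by positivity)]
      have c1 : (1 - ‖a‖) ^ 2 ≤ 1 - ‖a‖ ^ 2 := by nlinarith
      calc (1 - ‖φ z‖) * (1 - ‖a‖) ^ 2 ≤ (1 - ‖φ z‖ ^ 2) * (1 - ‖a‖ ^ 2) :=
            mul_le_mul b1 c1 (by positivity) (by linarith)
        _ = (1 - ‖ψ z‖ ^ 2) * D ^ 2 := by rw [hidψ]; ring
        _ ≤ (2 * (1 - ‖ψ z‖)) * 4 := by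
            apply mul_le_mul b4 _ (by positivity) (by positivity)
            nlinarith
        _ = 8 * (1 - ‖ψ z‖) := by ring
    · rw [hκ, div_mul_eq_mul_div, le_div_iff₀ (by positivity)]
      calc (1 - ‖ψ z‖) * (1 - ‖a‖) ^ 2 ≤ (1 - ‖ψ z‖ ^ 2) * D ^ 2 := by
            apply mul_le_mul b2 _ (by positivity) (by linarith)
            exact pow_le_pow_left₀ ha2.le hD2 2
        _ = (1 - ‖a‖ ^ 2) * (1 - ‖φ z‖ ^ 2) := hidψ
        _ ≤ 1 * (2 * (1 - ‖φ z‖)) := by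
            apply mul_le_mul _ b3 (by linarith) (by norm_num)
            nlinarith
        _ ≤ 8 * (1 - ‖φ z‖) := by linarith
  refine ⟨g, ψ, κ, ‖a‖, hSD, hκ0, ha1, hcmp, ?_⟩
  intro z hz r hr0 hr1 hρ
  have h1 : ‖ψ z‖ < 1 := bl_norm_lt ha1 (hlt z hz)
  rw [hφψ _ (hSD.psi_mem hz hr0 hr1), hSD.phi_psi hz hr0 hr1, hφψ z hz]
  exact moebius_ray ha1 h1 hr0 hr1 hρ

/-- the extension of a function on `(0,1]` to the line -/
noncomputable def ext01 (V : ℝ → ℝ) (t : ℝ) : ℝ := if t ≤ 0 then 0 else if t ≤ 1 then V t else V 1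

theorem monotone_ext01 {V : ℝ → ℝ} (hV0 : ∀ t ∈ Ioc (0 : ℝ) 1, 0 < V t)
    (hV : MonotoneOn V (Ioc (0 : ℝ) 1)) : Monotone (ext01 V) := by
  intro s t hst
  unfold ext01
  have h1 : (1 : ℝ) ∈ Ioc (0 : ℝ) 1 := ⟨one_pos, le_rfl⟩
  by_cases hs : s ≤ 0
  · rw [if_pos hs]
    split_ifs with h2 h3
    · exact le_rfl
    · exact (hV0 t ⟨not_le.1 h2, h3⟩).le
    · exact (hV0 1 h1).le
  · have hs' := not_le.1 hs
    have ht : ¬ t ≤ 0 := not_le.2 (hs'.trans_le hst)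
    rw [if_neg hs, if_neg ht]
    by_cases hs1 : s ≤ 1
    · rw [if_pos hs1]
      split_ifs with h3
      · exact hV ⟨hs', hs1⟩ ⟨not_le.1 ht, h3⟩ hst
      · exact hV ⟨hs', hs1⟩ h1 hs1
    · have ht1 : ¬ t ≤ 1 := not_le.2 ((not_le.1 hs1).trans_le hst)
      rw [if_neg hs1, if_neg ht1]

/-- Completeness for every `p ≥ 1`, every conformal map and all regular weights. -/
theorem dense_confV {φ : ℂ → ℂ} (hd : DifferentiableOn ℂ φ Om) (hb : BijOn φ Om (ball 0 1))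
    {W : ℝ → ℝ} (hW0 : ∀ t ∈ Ioc (0 : ℝ) 1, 0 < W t)
    (hWm : MonotoneOn (fun t => W t / t ^ 2) (Ioc (0 : ℝ) 1))
    (M : ℕ) {p : ℝ} (hp : 1 ≤ p) (hM : 8 * (p - 1) ≤ M) {C : ℝ}
    (hWC : ∀ t ∈ Ioc (0 : ℝ) 1, W t ≤ C * t ^ (M + 2))
    {f : ℂ → ℂ} (hf : DifferentiableOn ℂ f Om)
    (hfin : ∫⁻ z in Om, ‖f z‖ₑ ^ p * ENNReal.ofReal (W (1 - ‖φ z‖)) < ∞) {ε : ℝ≥0∞} (hε : 0 < ε) :
    ∃ P : ℂ[X], ∫⁻ z in Om, ‖f z - P.eval z‖ₑ ^ p * ENNReal.ofReal (W (1 - ‖φ z‖)) < ε := by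
  obtain ⟨g, ψ, κ, ρ₀, hSD, hκ0, hρ₀, hcmp, hray⟩ := normaliseV hd hb
  have hlt : ∀ z ∈ Om, ‖φ z‖ < 1 := fun z hz => mem_ball_zero_iff.1 (hb.mapsTo hz)
  have hI : ∀ z ∈ Om, 1 - ‖φ z‖ ∈ Ioc (0 : ℝ) 1 := fun z hz =>
    ⟨by have := hlt z hz; linarith, by have := norm_nonneg (φ z); linarith⟩
  set V : ℝ → ℝ := fun t => W t / t ^ 2 with hV
  have hV0 : ∀ t ∈ Ioc (0 : ℝ) 1, 0 < V t := fun t ht => div_pos (hW0 t ht) (pow_pos ht.1 2)
  have hVW : ∀ t ∈ Ioc (0 : ℝ) 1, W t = t ^ 2 * V t := by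
    intro t ht
    simp only [hV]
    rw [mul_div_cancel₀ _ (pow_pos ht.1 2).ne']
  have hC0 : 0 < C := by
    have h1 := hWC 1 ⟨one_pos, le_rfl⟩
    have h2 := hW0 1 ⟨one_pos, le_rfl⟩
    rw [one_pow, mul_one] at h1
    linarith
  have hVC : ∀ t ∈ Ioc (0 : ℝ) 1, V t ≤ C * t ^ M := by
    intro t ht
    simp only [hV]
    rw [div_le_iff₀ (pow_pos ht.1 2)]
    calc W t ≤ C * t ^ (M + 2) := hWC t ht
      _ = C * t ^ M * t ^ 2 := by ring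
  set v : ℂ → ℝ := fun z => V (1 - ‖φ z‖) with hv
  have hvM : ∀ z ∈ Om, v z ≤ C * κ ^ M * (1 - ‖ψ z‖) ^ M := by
    intro z hz
    calc v z ≤ C * (1 - ‖φ z‖) ^ M := hVC _ (hI z hz)
      _ ≤ C * (κ * (1 - ‖ψ z‖)) ^ M := by
          apply mul_le_mul_of_nonneg_left _ hC0.le
          exact pow_le_pow_left₀ (hI z hz).1.le (hcmp z hz).1 _
      _ = C * κ ^ M * (1 - ‖ψ z‖) ^ M := by rw [mul_pow]; ring
  have hadm : Adm Om g ψ v := by
    refine ⟨fun z hz => (hV0 _ (hI z hz)).le, ⟨C, hC0.le, fun z hz => ?_⟩, ?_, ρ₀, hρ₀, ?_⟩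
    · calc v z ≤ C * (1 - ‖φ z‖) ^ M := hVC _ (hI z hz)
        _ ≤ C * 1 := mul_le_mul_of_nonneg_left (pow_le_one₀ (hI z hz).1.le (hI z hz).2) hC0.le
        _ = C := mul_one C
    · have h1 : AEMeasurable (fun z => 1 - ‖φ z‖) (volume.restrict Om) :=
        (continuousOn_const.sub hd.continuousOn.norm).aemeasurable isOpen_Om.measurableSet
      have h2 := (monotone_ext01 hV0 hWm).measurable.comp_aemeasurable h1
      refine h2.congr ?_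
      rw [Filter.EventuallyEq, ae_restrict_iff' isOpen_Om.measurableSet]
      refine ae_of_all _ fun z hz => ?_
      have h3 := hI z hz
      simp only [Function.comp, ext01, hv]
      rw [if_neg (not_le.2 h3.1), if_pos h3.2]
    · intro z hz r hr0 hr1 hρ
      have h1 := hray z hz r hr0 hr1 hρ
      exact hWm (hI z hz) (hI _ (hSD.psi_mem hz hr0 hr1)) (by linarith)
  have hw1 : ∀ z ∈ Om, ENNReal.ofReal (W (1 - ‖φ z‖)) ≤
      ENNReal.ofReal (κ ^ 2) * ENNReal.ofReal (wv ψ v z) := by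
    intro z hz
    rw [← ENNReal.ofReal_mul (by positivity)]
    apply ENNReal.ofReal_le_ofReal
    have h1 := (hcmp z hz).1
    rw [hVW _ (hI z hz)]
    unfold wv wt
    rw [← mul_assoc, ← mul_pow]
    exact mul_le_mul_of_nonneg_right (pow_le_pow_left₀ (hI z hz).1.le h1 2) (hV0 _ (hI z hz)).le
  have hw2 : ∀ z ∈ Om, ENNReal.ofReal (wv ψ v z) ≤
      ENNReal.ofReal (κ ^ 2) * ENNReal.ofReal (W (1 - ‖φ z‖)) := by
    intro z hz
    rw [← ENNReal.ofReal_mul (by positivity)]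
    apply ENNReal.ofReal_le_ofReal
    have h1 := (hcmp z hz).2
    have h2 := hSD.norm_phi_lt hz
    rw [hVW _ (hI z hz)]
    unfold wv wt
    rw [← mul_assoc, ← mul_pow]
    exact mul_le_mul_of_nonneg_right (pow_le_pow_left₀ (by linarith) h1 2) (hV0 _ (hI z hz)).le
  set K : ℝ≥0∞ := ENNReal.ofReal (κ ^ 2) with hK
  have hK0 : K ≠ 0 := by
    rw [hK, Ne, ENNReal.ofReal_eq_zero, not_le]; positivity
  have hKt : K ≠ ∞ := ENNReal.ofReal_ne_top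
  have hfin2 : ∫⁻ z in Om, ‖f z‖ₑ ^ p * ENNReal.ofReal (wv ψ v z) < ∞ := by
    calc ∫⁻ z in Om, ‖f z‖ₑ ^ p * ENNReal.ofReal (wv ψ v z)
        ≤ ∫⁻ z in Om, K * (‖f z‖ₑ ^ p * ENNReal.ofReal (W (1 - ‖φ z‖))) := by
          apply setLIntegral_mono' isOpen_Om.measurableSet
          intro z hz
          calc ‖f z‖ₑ ^ p * ENNReal.ofReal (wv ψ v z)
              ≤ ‖f z‖ₑ ^ p * (K * ENNReal.ofReal (W (1 - ‖φ z‖))) := by
                gcongr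
                exact hw2 z hz
            _ = K * (‖f z‖ₑ ^ p * ENNReal.ofReal (W (1 - ‖φ z‖))) := by ring
      _ = K * ∫⁻ z in Om, ‖f z‖ₑ ^ p * ENNReal.ofReal (W (1 - ‖φ z‖)) :=
          lintegral_const_mul' _ _ hKt
      _ < ∞ := ENNReal.mul_lt_top hKt.lt_top hfin
  obtain ⟨P, hP⟩ := dense_allV hSD hadm M hp hM (by positivity : 0 < C * κ ^ M) hvM hf hfin2
    (ε := ε / K) (ENNReal.div_pos hε.ne' hKt)
  refine ⟨P, ?_⟩
  calc ∫⁻ z in Om, ‖f z - P.eval z‖ₑ ^ p * ENNReal.ofReal (W (1 - ‖φ z‖))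
      ≤ ∫⁻ z in Om, K * (‖f z - P.eval z‖ₑ ^ p * ENNReal.ofReal (wv ψ v z)) := by
        apply setLIntegral_mono' isOpen_Om.measurableSet
        intro z hz
        calc ‖f z - P.eval z‖ₑ ^ p * ENNReal.ofReal (W (1 - ‖φ z‖))
            ≤ ‖f z - P.eval z‖ₑ ^ p * (K * ENNReal.ofReal (wv ψ v z)) := by
              gcongr
              exact hw1 z hz
          _ = K * (‖f z - P.eval z‖ₑ ^ p * ENNReal.ofReal (wv ψ v z)) := by ring
    _ = K * ∫⁻ z in Om, ‖f z - P.eval z‖ₑ ^ p * ENNReal.ofReal (wv ψ v z) :=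
        lintegral_const_mul' _ _ hKt
    _ < K * (ε / K) := (ENNReal.mul_lt_mul_iff_right hK0 hKt).2 hP
    _ = ε := ENNReal.mul_div_cancel hK0 hKt

end Pool.Agent.Y285.LL
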