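import Pool.Agent.Helper523.LL.AllP
import Pool.Agent.Y285.LL.DilV

/-!
Completeness of the polynomials in `L^p_a(Om, W(1-|φ|))` for every conformal map `φ` and all weights
`W(t) = t^2 V(t)` with `V` nondecreasing and `V(t) = O(t^M)`, `M ≥ 8 (p - 1)` (adapted from
`Pool.Agent.Helper523.LL.AllP`, where `V(t) = t^M`).
-/

set_option autoImplicit false

open Set Filter Metric Topology Complex MeasureTheory
open scoped ENNReal Polynomial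

namespace Pool.Agent.Y285.LL

open Pool.Agent.Helper523.LL Pool.Agent.Helper405.Riemann

variable {g φ : ℂ → ℂ} {v : ℂ → ℝ}

theorem dense_boundedV (h : SD Om g φ) (M : ℕ) {p : ℝ} (hp : 1 ≤ p) (hM : 8 * (p - 1) ≤ M)
    {Cv : ℝ} (hCv : 0 < Cv) (hvM : ∀ z ∈ Om, v z ≤ Cv * (1 - ‖φ z‖) ^ M)
    {F : ℂ → ℂ} (hF : DifferentiableOn ℂ F Om) {C : ℝ}
    (hC : ∀ z ∈ Om, ‖F z‖ ≤ C) {ε : ℝ≥0∞} (hε : 0 < ε) :
    ∃ P : ℂ[X], ∫⁻ z in Om, ‖F z - P.eval z‖ₑ ^ p * ENNReal.ofReal (wv φ v z) < ε := by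
  have hK0 : ENNReal.ofReal Cv ≠ 0 := by
    rw [Ne, ENNReal.ofReal_eq_zero, not_le]; exact hCv
  have hKt : ENNReal.ofReal Cv ≠ ∞ := ENNReal.ofReal_ne_top
  obtain ⟨P, hP⟩ := dense_boundedP h M hp hM hF hC (ε := ε / ENNReal.ofReal Cv)
    (ENNReal.div_pos hε.ne' hKt)
  refine ⟨P, ?_⟩
  calc ∫⁻ z in Om, ‖F z - P.eval z‖ₑ ^ p * ENNReal.ofReal (wv φ v z)
      ≤ ∫⁻ z in Om, ENNReal.ofReal Cv * (‖F z - P.eval z‖ₑ ^ p * ENNReal.ofReal (wN M φ z)) := by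
        apply setLIntegral_mono' isOpen_Om.measurableSet
        intro z hz
        have h1 : ENNReal.ofReal (wv φ v z) ≤ ENNReal.ofReal Cv * ENNReal.ofReal (wN M φ z) := by
          rw [← ENNReal.ofReal_mul hCv.le]
          apply ENNReal.ofReal_le_ofReal
          have h2 := mul_le_mul_of_nonneg_left (hvM z hz) (wt_nonneg φ z)
          refine h2.trans (le_of_eq ?_)
          unfold wN wt
          ring
        calc ‖F z - P.eval z‖ₑ ^ p * ENNReal.ofReal (wv φ v z)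
            ≤ ‖F z - P.eval z‖ₑ ^ p * (ENNReal.ofReal Cv * ENNReal.ofReal (wN M φ z)) := by
              gcongr
          _ = ENNReal.ofReal Cv * (‖F z - P.eval z‖ₑ ^ p * ENNReal.ofReal (wN M φ z)) := by ring
    _ = ENNReal.ofReal Cv * ∫⁻ z in Om, ‖F z - P.eval z‖ₑ ^ p * ENNReal.ofReal (wN M φ z) :=
        lintegral_const_mul' _ _ hKt
    _ < ENNReal.ofReal Cv * (ε / ENNReal.ofReal Cv) := (ENNReal.mul_lt_mul_iff_right hK0 hKt).2 hP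
    _ = ε := ENNReal.mul_div_cancel hK0 hKt

theorem dense_allV (h : SD Om g φ) (hv : Adm Om g φ v) (M : ℕ) {p : ℝ} (hp : 1 ≤ p)
    (hM : 8 * (p - 1) ≤ M) {Cv : ℝ} (hCv : 0 < Cv) (hvM : ∀ z ∈ Om, v z ≤ Cv * (1 - ‖φ z‖) ^ M)
    {f : ℂ → ℂ} (hf : DifferentiableOn ℂ f Om)
    (hfin : ∫⁻ z in Om, ‖f z‖ₑ ^ p * ENNReal.ofReal (wv φ v z) < ∞) {ε : ℝ≥0∞} (hε : 0 < ε) :
    ∃ P : ℂ[X], ∫⁻ z in Om, ‖f z - P.eval z‖ₑ ^ p * ENNReal.ofReal (wv φ v z) < ε := by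
  have hp0 : 0 < p := by linarith
  set κ : ℝ≥0∞ := (2 : ℝ≥0∞) ^ (p - 1) with hκ
  have hκt : κ ≠ ∞ := by
    rw [hκ]
    exact ENNReal.rpow_ne_top_of_nonneg (by linarith) (by norm_num)
  have hκ0 : κ ≠ 0 := by
    rw [hκ]
    exact (ENNReal.rpow_pos (by norm_num) (by norm_num)).ne'
  have hε' : 0 < ε / κ / 2 := ENNReal.half_pos (ENNReal.div_pos hε.ne' hκt).ne'
  obtain ⟨F, hF, ⟨C, hC⟩, h1⟩ := dilV h hv hp hf hfin hε'
  obtain ⟨P, hP⟩ := dense_boundedV h M hp hM hCv hvM hF hC hε'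
  refine ⟨P, ?_⟩
  have hm : AEMeasurable (fun z => ‖f z - F z‖ₑ ^ p * ENNReal.ofReal (wv φ v z)) (volume.restrict Om) := by
    have hwc : ContinuousOn (wt φ) Om := by
      unfold wt
      exact (continuousOn_const.sub h.φd.continuousOn.norm).pow _
    have h2 := (((hf.continuousOn.sub hF.continuousOn).aestronglyMeasurable h.meas (μ := volume)).enorm).pow_const p
    have h3 := ((hwc.aemeasurable h.meas (μ := volume)).mul hv.meas).ennreal_ofReal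
    exact h2.mul h3
  calc ∫⁻ z in Om, ‖f z - P.eval z‖ₑ ^ p * ENNReal.ofReal (wv φ v z)
      ≤ ∫⁻ z in Om, κ * (‖f z - F z‖ₑ ^ p * ENNReal.ofReal (wv φ v z) +
          ‖F z - P.eval z‖ₑ ^ p * ENNReal.ofReal (wv φ v z)) := by
        apply lintegral_mono
        intro z
        simp only
        rw [← add_mul, ← mul_assoc]
        gcongr
        have e : f z - P.eval z = (f z - F z) + (F z - P.eval z) := by ring
        calc ‖f z - P.eval z‖ₑ ^ p ≤ (‖f z - F z‖ₑ + ‖F z - P.eval z‖ₑ) ^ p := by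
              apply ENNReal.rpow_le_rpow _ hp0.le
              rw [e]
              exact enorm_add_le _ _
          _ ≤ κ * (‖f z - F z‖ₑ ^ p + ‖F z - P.eval z‖ₑ ^ p) :=
              ENNReal.rpow_add_le_mul_rpow_add_rpow _ _ hp
    _ = κ * ∫⁻ z in Om, (‖f z - F z‖ₑ ^ p * ENNReal.ofReal (wv φ v z) +
          ‖F z - P.eval z‖ₑ ^ p * ENNReal.ofReal (wv φ v z)) := lintegral_const_mul' _ _ hκt
    _ = κ * ((∫⁻ z in Om, ‖f z - F z‖ₑ ^ p * ENNReal.ofReal (wv φ v z)) +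
          ∫⁻ z in Om, ‖F z - P.eval z‖ₑ ^ p * ENNReal.ofReal (wv φ v z)) := by
        rw [lintegral_add_left' hm]
    _ < κ * (ε / κ / 2 + ε / κ / 2) :=
        (ENNReal.mul_lt_mul_iff_right hκ0 hκt).2 (ENNReal.add_lt_add h1 hP)
    _ = ε := by rw [ENNReal.add_halves, ENNReal.mul_div_cancel hκ0 hκt]

/-- monotonicity of the distance to the circle of a Möbius image along a ray -/
theorem moebius_ray {a ζ : ℂ} (ha : ‖a‖ < 1) (hζ : ‖ζ‖ < 1) {r : ℝ} (hr0 : 0 ≤ r) (hr1 : r ≤ 1)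
    (hρ : ‖a‖ ≤ r * ‖ζ‖) : ‖bl (-a) (r * ζ)‖ ≤ ‖bl (-a) ζ‖ := by
  have hna : ‖-a‖ < 1 := by rwa [norm_neg]
  have hrζ : ‖(r : ℂ) * ζ‖ = r * ‖ζ‖ := by rw [norm_mul, norm_real, Real.norm_of_nonneg hr0]
  have hrζ1 : ‖(r : ℂ) * ζ‖ < 1 := by rw [hrζ]; nlinarith [norm_nonneg ζ]
  have i1 := bl_id hna hζ
  have i2 := bl_id hna hrζ1
  have n1 : 0 < ‖1 - (starRingEnd ℂ) (-a) * ζ‖ ^ 2 :=
    pow_pos (norm_pos_iff.2 (bl_den_ne hna hζ)) 2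
  have n2 : 0 < ‖1 - (starRingEnd ℂ) (-a) * (r * ζ)‖ ^ 2 :=
    pow_pos (norm_pos_iff.2 (bl_den_ne hna hrζ1)) 2
  have e1 : ‖1 - (starRingEnd ℂ) (-a) * ζ‖ ^ 2 =
      1 + 2 * ((starRingEnd ℂ) a * ζ).re + ‖a‖ ^ 2 * ‖ζ‖ ^ 2 := by
    have h1 : 1 - (starRingEnd ℂ) (-a) * ζ = 1 + (starRingEnd ℂ) a * ζ := by
      rw [map_neg]; ring
    have h2 : ‖(starRingEnd ℂ) a * ζ‖ ^ 2 = ‖a‖ ^ 2 * ‖ζ‖ ^ 2 := by
      rw [norm_mul, RCLike.norm_conj, mul_pow]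
    rw [h1, ← h2, Complex.sq_norm, Complex.sq_norm, Complex.normSq_apply, Complex.normSq_apply]
    simp only [add_re, add_im, one_re, one_im]
    ring
  have e2 : ‖1 - (starRingEnd ℂ) (-a) * (r * ζ)‖ ^ 2 =
      1 + 2 * r * ((starRingEnd ℂ) a * ζ).re + r ^ 2 * (‖a‖ ^ 2 * ‖ζ‖ ^ 2) := by
    have h1 : 1 - (starRingEnd ℂ) (-a) * (r * ζ) = 1 + (r : ℂ) * ((starRingEnd ℂ) a * ζ) := by
      rw [map_neg]; ring
    have h2 : ‖(starRingEnd ℂ) a * ζ‖ ^ 2 = ‖a‖ ^ 2 * ‖ζ‖ ^ 2 := by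
      rw [norm_mul, RCLike.norm_conj, mul_pow]
    rw [h1, ← h2, Complex.sq_norm, Complex.sq_norm, Complex.normSq_apply, Complex.normSq_apply]
    simp only [add_re, add_im, one_re, one_im, re_ofReal_mul, im_ofReal_mul]
    ring
  have hβ : -(‖a‖ * ‖ζ‖) ≤ ((starRingEnd ℂ) a * ζ).re := by
    have h1 := Complex.abs_re_le_norm ((starRingEnd ℂ) a * ζ)
    rw [norm_mul, RCLike.norm_conj] at h1
    exact (abs_le.1 h1).1
  set β := ((starRingEnd ℂ) a * ζ).re with hβd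
  set x := ‖ζ‖ with hx
  set A := ‖a‖ with hA
  have hx0 : 0 ≤ x := norm_nonneg ζ
  have hA0 : 0 ≤ A := norm_nonneg a
  have hyx : r * x ≤ x := by nlinarith
  have key : (1 - x ^ 2) * (1 + 2 * r * β + r ^ 2 * (A ^ 2 * x ^ 2)) ≤
      (1 - (r * x) ^ 2) * (1 + 2 * β + A ^ 2 * x ^ 2) := by
    have k1 : 0 ≤ (x - A) * (1 - A * (r * x)) + (r * x - A) * (1 - A * x) := by
      have : A * x ≤ 1 := by nlinarith
      have : A * (r * x) ≤ 1 := by nlinarith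
      apply add_nonneg
      · apply mul_nonneg <;> linarith
      · apply mul_nonneg <;> linarith
    have k2 : 0 ≤ x ^ 2 * (1 + r) * (1 + A ^ 2) + 2 * β * (1 + r * x ^ 2) := by
      have k3 : -(A * x) * (2 * (1 + r * x ^ 2)) ≤ β * (2 * (1 + r * x ^ 2)) :=
        mul_le_mul_of_nonneg_right hβ (by positivity)
      have k4 := mul_nonneg hx0 k1
      nlinarith
    have k5 := mul_nonneg (sub_nonneg.2 hr1) k2
    nlinarith
  rw [e1] at i1 n1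
  rw [e2, hrζ] at i2
  rw [e2] at n2
  rw [norm_neg, ← hA] at i1 i2
  have hA1 : 0 < 1 - A ^ 2 := by nlinarith
  -- compare
  have c1 : (1 - ‖bl (-a) ζ‖ ^ 2) * ((1 + 2 * β + A ^ 2 * x ^ 2) *
      (1 + 2 * r * β + r ^ 2 * (A ^ 2 * x ^ 2))) ≤
      (1 - ‖bl (-a) (r * ζ)‖ ^ 2) * ((1 + 2 * β + A ^ 2 * x ^ 2) *
      (1 + 2 * r * β + r ^ 2 * (A ^ 2 * x ^ 2))) := by
    calc _ = ((1 - ‖bl (-a) ζ‖ ^ 2) * (1 + 2 * β + A ^ 2 * x ^ 2)) *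
          (1 + 2 * r * β + r ^ 2 * (A ^ 2 * x ^ 2)) := by ring
      _ = (1 - A ^ 2) * ((1 - x ^ 2) * (1 + 2 * r * β + r ^ 2 * (A ^ 2 * x ^ 2))) := by
          rw [i1]; ring
      _ ≤ (1 - A ^ 2) * ((1 - (r * x) ^ 2) * (1 + 2 * β + A ^ 2 * x ^ 2)) :=
          mul_le_mul_of_nonneg_left key hA1.le
      _ = ((1 - ‖bl (-a) (r * ζ)‖ ^ 2) * (1 + 2 * r * β + r ^ 2 * (A ^ 2 * x ^ 2))) *
          (1 + 2 * β + A ^ 2 * x ^ 2) := by rw [i2]; ring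
      _ = _ := by ring
  have c2 := le_of_mul_le_mul_right c1 (mul_pos n1 n2)
  have c3 : ‖bl (-a) (r * ζ)‖ ^ 2 ≤ ‖bl (-a) ζ‖ ^ 2 := by linarith
  exact (pow_le_pow_iff_left₀ (norm_nonneg _) (norm_nonneg _) two_ne_zero).1 c3

end Pool.Agent.Y285.LL
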